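import Pool.Agent.Helper75.CR.St2

/-!
# Project CR (MP_265e56_al, helper75): module P5

If the three element semilattice is not in the variety, then `x = b x* c`.
-/

set_option autoImplicit false

namespace Pool.Agent.Helper91.CR

open Pool.Agent.Helper75.CR Helper1.IM

/-- A substitution which maps all letters of the word to `x_0` maps the word to a power of `x_0`. -/
theorem sb_pow (g : ℕ → Wd) : ∀ w : Wd, (∀ c ∈ w, (if c.2 then st (g c.1) else g c.1) = [X 0]) →
    sb g w = List.replicate w.length (X 0) := by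
  intro w
  induction w with
  | nil => intro _; rfl
  | cons c w ih =>
    intro h
    rw [sb_cons, h c List.mem_cons_self, ih (fun d hd => h d (List.mem_cons_of_mem _ hd)), List.length_cons,
      List.replicate_succ]
    rfl

/-- Powers of `x_0` are left factors of `x_0`. -/
theorem pow_left (θ : FIC) (h : CRF θ) : ∀ k : ℕ, ∃ d, θ.r [X 0] (List.replicate (k + 1) (X 0) ++ d) := by
  obtain ⟨⟨b, hb⟩, -⟩ := h
  intro k
  induction k with
  | zero => exact ⟨[], by simpa using θ.refl' [X 0]⟩
  | succ k ih =>
    obtain ⟨d, hd⟩ := ih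
    refine ⟨b ++ d, θ.trans' hd ?_⟩
    have h1 := θ.mul' (List.replicate k (X 0)) d hb
    have e1 : List.replicate (k + 1) (X 0) ++ d = List.replicate k (X 0) ++ [X 0] ++ d := by
      rw [List.replicate_succ']
    have e2 : List.replicate (k + 1 + 1) (X 0) ++ (b ++ d) = List.replicate k (X 0) ++ ([X 0, X 0] ++ b) ++ d := by
      rw [List.replicate_succ', List.replicate_succ']
      simp
    rw [e1, e2]
    exact h1

/-- The first case: a letter of `v` which is not a letter of the unpaired word `u`. -/
theorem case1 (θ : FIC) (hc : CRF θ) (u v : Wd) (hr : θ.r u v) (hu : u ≠ []) (hp : ¬ Prd u) (a : Lt)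
    (hav : a ∈ v) (hau : a ∉ u) : SRF θ := by
  classical
  obtain ⟨g, hg⟩ : ∃ g : ℕ → Wd, g = fun j => if j = a.1 then (if a.2 then [X 0] else [Y 0]) else
    (if (j, true) ∈ u then [Y 0] else [X 0]) := ⟨_, rfl⟩
  have hgn : ∀ i, g i ≠ [] := by
    intro i
    rw [hg]
    dsimp only
    split_ifs <;> simp
  have h1 : sb g u = List.replicate u.length (X 0) := by
    apply sb_pow
    rintro ⟨i, b⟩ hcu
    by_cases hi : i = a.1
    · have hb : b = !a.2 := by
        by_contra hb
        have : b = a.2 := by
          cases b <;> cases h : a.2 <;> simp_all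
        exact hau (by rw [show a = (i, b) from Prod.ext hi.symm this.symm]; exact hcu)
      rw [hg, hb]
      dsimp only
      rw [if_pos hi]
      cases h : a.2 <;> simp
    · rw [hg]
      dsimp only
      rw [if_neg hi]
      cases b with
      | false =>
        have : (i, true) ∉ u := fun h => hp ⟨i, hcu, h⟩
        simp [this]
      | true => simp [hcu]
  obtain ⟨s, t, hst⟩ := List.append_of_mem hav
  have h2 : sb g v = sb g s ++ [Y 0] ++ sb g t := by
    rw [hst, sb_append, sb_cons, List.append_assoc]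
    congr 2
    rw [hg]
    dsimp only
    rw [if_pos rfl]
    cases h : a.2 <;> simp
  have h3 := θ.sub' g hgn hr
  rw [h1, h2] at h3
  obtain ⟨k, hk⟩ : ∃ k, u.length = k + 1 := by
    have := List.length_pos_iff.2 hu
    exact ⟨u.length - 1, by omega⟩
  rw [hk] at h3
  obtain ⟨d, hd⟩ := pow_left θ hc k
  refine ⟨sb g s, sb g t ++ d, θ.trans' hd ?_⟩
  have h4 := θ.mulR d h3
  simpa [List.append_assoc] using h4

/-- The second case: `u` is unpaired and the signed letters of `u` and `v` are different. -/
theorem case2 (θ : FIC) (hc : CRF θ) (u v : Wd) (hr : θ.r u v) (hp : ¬ Prd u) (hs : ¬ SC u v) : SRF θ := by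
  have hu : u ≠ [] := by
    intro hu
    have hv := θ.ne' hr hu
    exact hs (by rw [hu, hv]; exact fun _ => Iff.rfl)
  have hv : v ≠ [] := θ.ne'' hr hu
  by_cases h : ∃ a, a ∈ v ∧ a ∉ u
  · obtain ⟨a, hav, hau⟩ := h
    exact case1 θ hc u v hr hu hp a hav hau
  · push Not at h
    have hpv : ¬ Prd v := by
      rintro ⟨i, h1, h2⟩
      exact hp ⟨i, h _ h1, h _ h2⟩
    have h' : ∃ a, a ∈ u ∧ a ∉ v := by
      by_contra hcon
      push Not at hcon
      exact hs (fun a => ⟨hcon a, h a⟩)
    obtain ⟨a, hau, hav⟩ := h'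
    exact case1 θ hc v u (θ.symm' hr) hv hpv a hau hav

/-- Module P5: if `SL3` is not in the variety, then `x = b x* c` for some words `b`, `c`. -/
theorem hP5 : StP5 := by
  intro θ hc hn
  unfold SLE at hn
  push Not at hn
  obtain ⟨u, v, hr, h1, h2⟩ := hn
  by_cases hu : Prd u
  · have hv : ¬ Prd v := h1 hu
    refine case2 θ hc v u (θ.symm' hr) hv ?_
    intro hs
    obtain ⟨i, h3, h4⟩ := hu
    exact hv ⟨i, (hs _).2 h3, (hs _).2 h4⟩
  · refine case2 θ hc u v hr hu ?_
    intro hs
    have hv : ¬ Prd v := by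
      rintro ⟨i, h3, h4⟩
      exact hu ⟨i, (hs _).2 h3, (hs _).2 h4⟩
    exact h2 hu hv hs

end Pool.Agent.Helper91.CR
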